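import Mathlib
import Pool.Agent.H76.TP.AllDir

/-!
MP_5e745b_pr: for every law `p`, either almost surely there are infinitely many infinite tricolor
paths, or almost surely there are finitely many and no ray of an infinite path stays in a half
space.
-/

open MeasureTheory Filter

namespace Pool.Agent.Results.MP_5e745b_pr.OscillatingEnds

open H76.TP

theorem result (μ : Measure (Fin 3)) [IsProbabilityMeasure μ] :
    (∀ᵐ ω ∂law μ, (infinitePaths ω).Infinite) ∨
      ∀ᵐ ω ∂law μ, (infinitePaths ω).Finite ∧ ∀ ρ : ℕ → Vertex, IsRay (tri ω) ρ →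
        ∀ u : Fin 3 → ℝ, u ≠ 0 → ∀ c : ℝ,
        {t | ∀ v ∈ (ρ t).1, c ≤ ∑ i, u i * (v.1 i : ℝ)}.Infinite := by
  obtain ⟨k, hk⟩ := const_count μ
  by_cases hne : k = ⊤
  · left
    filter_upwards [hk] with ω h
    exact Set.encard_eq_top_iff.1 (h.trans hne)
  · right
    filter_upwards [hk, allDirections μ] with ω h1 h2
    have hf : (infinitePaths ω).Finite := Set.encard_ne_top_iff.1 (h1 ▸ hne)
    exact ⟨hf, h2 hf⟩

end Pool.Agent.Results.MP_5e745b_pr.OscillatingEnds
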