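import Mathlib
import Pool.Agent.H76.TP.Lines

/-!
MP_5e745b_pr: for every law `p` the number of infinite tricolor paths is almost surely constant;
if it is finite, then almost surely every end of every infinite path returns with positive upper
density, and with the same colours in any finite window, along every sublattice.
-/

open MeasureTheory Filter

namespace Pool.Agent.Results.MP_5e745b_pr.RecurrentEnds

open H76.TP

theorem result (μ : Measure (Fin 3)) [IsProbabilityMeasure μ] :
    ∃ k : ℕ∞, (∀ᵐ ω ∂law μ, (infinitePaths ω).encard = k) ∧ (k ≠ ⊤ →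
      ∀ᵐ ω ∂law μ, ∀ ρ : ℕ → Vertex, IsRay (tri ω) ρ →
        ∀ (W : Finset Cell) (d : ℕ) (e : Fin d → Cell), LinearIndependent ℤ e →
        ∃ ε : ℝ, 0 < ε ∧ ∃ᶠ N : ℕ in atTop,
          ε * (2 * N + 1) ^ d ≤ (returns ω ρ W e N).ncard) := by
  obtain ⟨k, hk⟩ := const_count μ
  refine ⟨k, hk, fun hne => ?_⟩
  filter_upwards [hk, lines μ] with ω h1 h2
  exact h2 (Set.encard_ne_top_iff.1 (h1 ▸ hne))

end Pool.Agent.Results.MP_5e745b_pr.RecurrentEnds
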